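import Pool.Agent.Helper81.XP.StA

set_option autoImplicit false

/-!
MP_f90738_co, module FLT (flattening).
-/

open Finset
open scoped Pointwise LinearAlgebra.Projectivization

namespace Pool.Agent.Helper85.XP.FLT

open Pool.Agent.Helper81.XP

/-- polynomially bounded -/
def PB (f : ℝ → ℝ) : Prop := ∃ C : ℕ, 1 ≤ C ∧ ∀ K : ℝ, 1 ≤ K → 0 ≤ f K ∧ f K ≤ C * K ^ C

lemma PB.const (c : ℝ) (hc : 0 ≤ c) : PB (fun _ => c) := by
  refine ⟨⌈c⌉₊ + 1, by omega, fun K hK => ⟨hc, ?_⟩⟩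
  have h1 : c ≤ (⌈c⌉₊ : ℝ) := Nat.le_ceil c
  have h2 : (1 : ℝ) ≤ K ^ (⌈c⌉₊ + 1) := one_le_pow₀ hK
  push_cast
  nlinarith [Nat.cast_nonneg (α := ℝ) ⌈c⌉₊]

lemma PB.id : PB (fun K => K) := ⟨1, le_rfl, fun K hK => ⟨by linarith, by simp⟩⟩

lemma PB.mul {f g : ℝ → ℝ} (hf : PB f) (hg : PB g) : PB (fun K => f K * g K) := by
  obtain ⟨C, hC, h⟩ := hf
  obtain ⟨D, hD, h'⟩ := hg
  refine ⟨C * D + C + D, by omega, fun K hK => ⟨mul_nonneg (h K hK).1 (h' K hK).1, ?_⟩⟩
  have hK0 : (0 : ℝ) ≤ K := by linarith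
  calc f K * g K ≤ (C * K ^ C) * (D * K ^ D) :=
        mul_le_mul (h K hK).2 (h' K hK).2 (h' K hK).1 (by positivity)
    _ = (C * D : ℝ) * K ^ (C + D) := by rw [pow_add]; ring
    _ ≤ (C * D + C + D : ℝ) * K ^ (C * D + C + D) := by
        apply mul_le_mul
        · have : (0 : ℝ) ≤ C := Nat.cast_nonneg C
          have : (0 : ℝ) ≤ D := Nat.cast_nonneg D
          linarith
        · exact pow_le_pow_right₀ hK (by
            have : 0 ≤ C * D := Nat.zero_le _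
            omega)
        · positivity
        · positivity
    _ = ((C * D + C + D : ℕ) : ℝ) * K ^ (C * D + C + D) := by push_cast; ring

lemma PB.pow {f : ℝ → ℝ} (hf : PB f) (n : ℕ) : PB (fun K => f K ^ n) := by
  induction n with
  | zero => simpa using PB.const 1 (by norm_num)
  | succ n ih => simpa [pow_succ] using ih.mul hf

lemma exists_large {ι : Type} (X : Finset ι) (a : ι → ℝ) (κ s : ℝ) (hκ : (X.card : ℝ) ≤ κ)
    (hs : 0 < s) (h : s ≤ ∑ x ∈ X, a x) : ∃ x ∈ X, s ≤ κ * a x := by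
  by_contra hcon
  push Not at hcon
  have hne : X.Nonempty := by
    rw [Finset.nonempty_iff_ne_empty]
    rintro rfl
    simp at h
    linarith
  have hcard : (0 : ℝ) < X.card := by exact_mod_cast hne.card_pos
  have hκ0 : 0 < κ := lt_of_lt_of_le hcard hκ
  have h1 : ∑ x ∈ X, κ * a x < ∑ x ∈ X, s := Finset.sum_lt_sum_of_nonempty hne hcon
  rw [← Finset.mul_sum, Finset.sum_const, nsmul_eq_mul] at h1
  have h2 : (X.card : ℝ) * s ≤ κ * s := mul_le_mul_of_nonneg_right hκ hs.le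
  have h3 : κ * s ≤ κ * ∑ x ∈ X, a x := mul_le_mul_of_nonneg_left h hκ0.le
  linarith

open Classical in
lemma cover {G : Type} [Group G] (ν : G → ℝ) (hν : ∀ x, 0 ≤ ν x) (P X H : Finset G)
    (hP : P ⊆ X * H) : ∑ z ∈ P, ν z ≤ ∑ x ∈ X, ∑ h ∈ H, ν (x * h) := by
  have h1 : ∀ z : G, ∃ q : G × G, z ∈ P → q ∈ X ×ˢ H ∧ q.1 * q.2 = z := by
    intro z
    by_cases hz : z ∈ P
    · obtain ⟨x, hx, y, hy, hxy⟩ := Finset.mem_mul.1 (hP hz)
      exact ⟨(x, y), fun _ => ⟨Finset.mem_product.2 ⟨hx, hy⟩, hxy⟩⟩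
    · exact ⟨(1, 1), fun h => absurd h hz⟩
  choose q hq using h1
  have hinj : ∀ z ∈ P, ∀ w ∈ P, q z = q w → z = w := by
    intro z hz w hw h
    rw [← (hq z hz).2, ← (hq w hw).2, h]
  calc ∑ z ∈ P, ν z = ∑ z ∈ P, ν ((q z).1 * (q z).2) :=
        Finset.sum_congr rfl fun z hz => by rw [(hq z hz).2]
    _ = ∑ r ∈ P.image q, ν (r.1 * r.2) := by
        rw [Finset.sum_image hinj]
    _ ≤ ∑ r ∈ X ×ˢ H, ν (r.1 * r.2) := by
        apply Finset.sum_le_sum_of_subset_of_nonneg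
        · intro r hr
          obtain ⟨z, hz, rfl⟩ := Finset.mem_image.1 hr
          exact (hq z hz).1
        · intro r _ _
          exact hν _
    _ = ∑ x ∈ X, ∑ h ∈ H, ν (x * h) := by rw [Finset.sum_product]

open Classical in
lemma coset_le {G : Type} [Group G] [Fintype G] (ν : G → ℝ) (hν : ∀ x, 0 ≤ ν x) (H : Finset G)
    (Γ : Subgroup G) (hH : ∀ h ∈ H, h ∈ Γ) (x : G) : ∑ h ∈ H, ν (x * h) ≤ cm ν x Γ := by
  unfold cm
  have hinj : ∀ z ∈ H, ∀ w ∈ H, x * z = x * w → z = w := fun z _ w _ h => mul_left_cancel h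
  calc ∑ h ∈ H, ν (x * h) = ∑ y ∈ H.image (fun h => x * h), ν y := by
        rw [Finset.sum_image hinj]
    _ = ∑ y ∈ H.image (fun h => x * h), (if x⁻¹ * y ∈ Γ then ν y else 0) := by
        apply Finset.sum_congr rfl
        intro y hy
        obtain ⟨h, hh, rfl⟩ := Finset.mem_image.1 hy
        have : x⁻¹ * (x * h) ∈ Γ := by simpa using hH h hh
        rw [if_pos this]
    _ ≤ ∑ y, (if x⁻¹ * y ∈ Γ then ν y else 0) := by
        apply Finset.sum_le_sum_of_subset_of_nonneg (Finset.subset_univ _)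
        intro y _ _
        split_ifs
        · exact hν y
        · exact le_rfl

lemma logbound (K : ℝ) (p : ℕ) (hp : 5 ≤ p) (hK : 1 ≤ K) (hpK : Real.log p ≤ K) (t : ℝ)
    (ht : 0 < t) (htp : 1 ≤ (p : ℝ) ^ 3 * t) : Real.logb 2 (16 * K ^ 2 / t) + 2 ≤ 16 * K := by
  have hp0 : (0 : ℝ) < p := by positivity
  have hK0 : (0 : ℝ) < K := by linarith
  have h1 : 16 * K ^ 2 / t ≤ 16 * K ^ 2 * (p : ℝ) ^ 3 := by
    rw [div_le_iff₀ ht]
    nlinarith [mul_nonneg (by positivity : (0 : ℝ) ≤ 16 * K ^ 2) (sub_nonneg.2 htp)]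
  have h2 : Real.log (16 * K ^ 2 / t) ≤ Real.log (16 * K ^ 2 * (p : ℝ) ^ 3) :=
    Real.log_le_log (by positivity) h1
  have h3 : Real.log (16 * K ^ 2 * (p : ℝ) ^ 3) = 4 * Real.log 2 + 2 * Real.log K +
      3 * Real.log p := by
    rw [Real.log_mul (by positivity) (by positivity), Real.log_mul (by norm_num) (by positivity),
      Real.log_pow, Real.log_pow]
    have : Real.log 16 = 4 * Real.log 2 := by
      rw [show (16 : ℝ) = 2 ^ 4 by norm_num, Real.log_pow]; norm_num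
    rw [this]
    norm_num
  have h4 : Real.log K ≤ K - 1 := Real.log_le_sub_one_of_pos hK0
  have h5 : (0.6931471803 : ℝ) < Real.log 2 := Real.log_two_gt_d9
  have h6 : Real.logb 2 (16 * K ^ 2 / t) ≤ 4 + 10 * K := by
    unfold Real.logb
    rw [div_le_iff₀ (by linarith)]
    nlinarith
  linarith

theorem FLT (hLEV : ST_LEV) (hBSG : ST_BSG) (hAPG : ST_APG) (hPRO : ST_PRO) (hCRD : ST_CRD) :
    ST_FLT := by
  classical
  obtain ⟨C1, hC1, hBSG⟩ := hBSG
  obtain ⟨C2, hC2, hAPG⟩ := hAPG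
  obtain ⟨C3, hC3, hPRO⟩ := hPRO
  -- the parameters
  set M : ℝ → ℝ := fun K => 2 ^ 22 * K ^ 6 with hMdef
  set K4 : ℝ → ℝ := fun K => C1 * M K ^ C1 with hK4def
  set ka : ℝ → ℝ := fun K => C2 * K4 K ^ C2 with hkadef
  set Q : ℝ → ℝ := fun K => 2048 * K ^ 3 * K4 K * ka K with hQdef
  have hMP : PB M := (PB.const (2 ^ 22) (by norm_num)).mul (PB.id.pow 6)
  have hK4P : PB K4 := (PB.const C1 (Nat.cast_nonneg _)).mul (hMP.pow C1)
  have hkaP : PB ka := (PB.const C2 (Nat.cast_nonneg _)).mul (hK4P.pow C2)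
  have hQP : PB Q := (((PB.const 2048 (by norm_num)).mul (PB.id.pow 3)).mul hK4P).mul hkaP
  have hF1 : PB (fun K => Q K * (C3 * ka K ^ C3)) :=
    hQP.mul ((PB.const C3 (Nat.cast_nonneg _)).mul (hkaP.pow C3))
  have hF2 : PB (fun K => (C3 * ka K ^ C3) * ka K * M K) :=
    (((PB.const C3 (Nat.cast_nonneg _)).mul (hkaP.pow C3)).mul hkaP).mul hMP
  obtain ⟨D, hD, hF⟩ := hF1.mul ((PB.const 1 (by norm_num)))
  obtain ⟨E, hE, hG⟩ := hF2
  refine ⟨D + E, by omega, ?_⟩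
  intro p _ hp ν hν K δ hK hpK hδ hCδ
  by_cases hflat : K ^ 2 * N2 (cv ν ν) ≤ N2 ν
  · exact Or.inl hflat
  right
  push Not at hflat
  have hK0 : (0 : ℝ) < K := by linarith
  have hδ0 : 0 ≤ δ := by
    have hbt : (⊥ : Subgroup (SL (ZMod p))) ≠ ⊤ := by
      intro h
      have h1 := hCRD p (Fact.out)
      have h2 : Nat.card (⊤ : Subgroup (SL (ZMod p))) = 1 := by
        rw [← h]; simp
      rw [Subgroup.card_top] at h2
      rw [h1] at h2
      have h3 : p * 25 ≤ p ^ 3 := by nlinarith [Nat.mul_le_mul hp hp]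
      omega
    have h1 := hδ ⊥ hbt 1
    have h2 : 0 ≤ cm ν 1 (⊥ : Subgroup (SL (ZMod p))) := by
      unfold cm
      apply Finset.sum_nonneg
      intro y _
      split_ifs
      · exact hν.1 y
      · exact le_rfl
    linarith
  have hbt : (⊥ : Subgroup (SL (ZMod p))) ≠ ⊤ := by
    intro h
    have h1 := hCRD p (Fact.out)
    have h2 : Nat.card (⊤ : Subgroup (SL (ZMod p))) = 1 := by
      rw [← h]; simp
    rw [Subgroup.card_top] at h2
    rw [h1] at h2
    have h3 : p * 25 ≤ p ^ 3 := by nlinarith [Nat.mul_le_mul hp hp]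
    omega
  -- N2 lower bound
  have hN1 : (1 : ℝ) ≤ (p : ℝ) ^ 3 * N2 ν := by
    have h1 := sq_sum_le_card_mul_sum_sq (s := (Finset.univ : Finset (SL (ZMod p)))) (f := ν)
    rw [hν.2.1] at h1
    have h2 : ((Finset.univ : Finset (SL (ZMod p))).card : ℝ) ≤ (p : ℝ) ^ 3 := by
      have h3 := hCRD p (Fact.out)
      rw [Nat.card_eq_fintype_card] at h3
      rw [Finset.card_univ, h3]
      exact_mod_cast Nat.sub_le _ _
    have h4 : 0 ≤ N2 ν := Finset.sum_nonneg fun x _ => sq_nonneg _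
    calc (1 : ℝ) = 1 ^ 2 := by norm_num
      _ ≤ ((Finset.univ : Finset (SL (ZMod p))).card : ℝ) * N2 ν := h1
      _ ≤ (p : ℝ) ^ 3 * N2 ν := mul_le_mul_of_nonneg_right h2 h4
  have hN0 : 0 < N2 ν := by
    by_contra h
    push Not at h
    have : (p : ℝ) ^ 3 * N2 ν ≤ 0 := mul_nonpos_of_nonneg_of_nonpos (by positivity) h
    linarith
  have hlog := logbound K p hp hK hpK (N2 ν) hN0 hN1
  obtain ⟨A, hAne, hAinv, hAE, hAx, hAN⟩ := hLEV (SL (ZMod p)) ν hν K (16 * K) hK hlog hflat.le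
  have hMval : 16 * (2 * K * (16 * K) ^ 2) ^ 2 = M K := by
    simp only [hMdef]; ring
  rw [hMval] at hAE hAN
  have hM1 : 1 ≤ M K := by
    simp only [hMdef]
    have : (1 : ℝ) ≤ K ^ 6 := one_le_pow₀ hK
    nlinarith
  obtain ⟨P, hPA, hPne, hAP, hPP⟩ := hBSG (SL (ZMod p)) A (M K) hM1 hAne hAinv hAE
  have hK41 : 1 ≤ K4 K := by
    simp only [hK4def]
    have h1 : (1 : ℝ) ≤ M K ^ C1 := one_le_pow₀ hM1
    have h2 : (1 : ℝ) ≤ C1 := by exact_mod_cast hC1
    nlinarith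
  obtain ⟨H, hHapp, hHP, X, hXc, hPX⟩ := hAPG (SL (ZMod p)) P (K4 K) hK41 hPne hPP
  have hka1 : 1 ≤ ka K := by
    simp only [hkadef]
    have h1 : (1 : ℝ) ≤ K4 K ^ C2 := one_le_pow₀ hK41
    have h2 : (1 : ℝ) ≤ C2 := by exact_mod_cast hC2
    nlinarith
  change IsApproximateSubgroup (ka K) (H : Set (SL (ZMod p))) at hHapp
  change (H.card : ℝ) ≤ ka K * (P.card : ℝ) at hHP
  change (X.card : ℝ) ≤ ka K at hXc
  change (A.card : ℝ) ≤ K4 K * (P.card : ℝ) at hAP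
  have hPc : (0 : ℝ) < P.card := by exact_mod_cast hPne.card_pos
  have hAc : (0 : ℝ) < A.card := by exact_mod_cast hAne.card_pos
  -- mass of P
  have hmass : 1 ≤ 2048 * K ^ 3 * K4 K * ∑ z ∈ P, ν z := by
    have h1 : (P.card : ℝ) ≤ 2048 * K ^ 3 * (A.card : ℝ) * ∑ z ∈ P, ν z := by
      rw [Finset.mul_sum]
      calc (P.card : ℝ) = ∑ z ∈ P, (1 : ℝ) := by simp
        _ ≤ ∑ z ∈ P, 2048 * K ^ 3 * (A.card : ℝ) * ν z := by
            apply Finset.sum_le_sum
            intro z hz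
            have := hAx z (hPA hz)
            calc (1 : ℝ) ≤ _ := this
              _ = _ := by ring
    have hS : 0 ≤ ∑ z ∈ P, ν z := Finset.sum_nonneg fun z _ => hν.1 z
    have h2 : 2048 * K ^ 3 * (A.card : ℝ) * ∑ z ∈ P, ν z ≤
        2048 * K ^ 3 * (K4 K * (P.card : ℝ)) * ∑ z ∈ P, ν z := by
      apply mul_le_mul_of_nonneg_right _ hS
      exact mul_le_mul_of_nonneg_left hAP (by positivity)
    have h3 : (P.card : ℝ) * 1 ≤ (P.card : ℝ) * (2048 * K ^ 3 * K4 K * ∑ z ∈ P, ν z) := by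
      calc (P.card : ℝ) * 1 = P.card := by ring
        _ ≤ _ := h1.trans h2
        _ = _ := by ring
    exact le_of_mul_le_mul_left h3 hPc
  have hcov := cover ν hν.1 P X H hPX
  have hB0 : 0 < 2048 * K ^ 3 * K4 K := by positivity
  have hmass2 : 1 / (2048 * K ^ 3 * K4 K) ≤ ∑ x ∈ X, ∑ h ∈ H, ν (x * h) := by
    refine le_trans ?_ hcov
    rw [div_le_iff₀ hB0]
    linarith
  obtain ⟨x, hxX, hx⟩ := exists_large X (fun x => ∑ h ∈ H, ν (x * h)) (ka K) _ hXc
    (by positivity) hmass2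
  have hxQ : 1 ≤ Q K * ∑ h ∈ H, ν (x * h) := by
    rw [div_le_iff₀ hB0] at hx
    simp only [hQdef]
    linarith
  -- comparison with the constants
  have hKD : (1 : ℝ) ≤ K ^ D := one_le_pow₀ hK
  have hcC : ((D : ℝ) + E) * K ^ (D + E) * δ < 1 := by
    have := hCδ
    push_cast at this
    exact this
  have hDle : (D : ℝ) * K ^ D ≤ ((D : ℝ) + E) * K ^ (D + E) := by
    apply mul_le_mul
    · have : (0 : ℝ) ≤ E := Nat.cast_nonneg E
      linarith
    · exact pow_le_pow_right₀ hK (by omega)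
    · positivity
    · positivity
  have hEle : (E : ℝ) * K ^ E ≤ ((D : ℝ) + E) * K ^ (D + E) := by
    apply mul_le_mul
    · have : (0 : ℝ) ≤ D := Nat.cast_nonneg D
      linarith
    · exact pow_le_pow_right₀ hK (by omega)
    · positivity
    · positivity
  have hC3r : (1 : ℝ) ≤ C3 := by exact_mod_cast hC3
  have hkC : (1 : ℝ) ≤ C3 * ka K ^ C3 := by
    have : (1 : ℝ) ≤ ka K ^ C3 := one_le_pow₀ hka1
    nlinarith
  have hQpos : 0 ≤ Q K := by simp only [hQdef]; positivity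
  have hQδ : Q K * (C3 * ka K ^ C3) * δ < 1 := by
    have h1 := (hF K hK).2
    simp only [mul_one] at h1
    calc Q K * (C3 * ka K ^ C3) * δ ≤ ((D : ℝ) * K ^ D) * δ := mul_le_mul_of_nonneg_right h1 hδ0
      _ ≤ (((D : ℝ) + E) * K ^ (D + E)) * δ := mul_le_mul_of_nonneg_right hDle hδ0
      _ < 1 := hcC
  have hQδ1 : Q K * δ < 1 := by
    have h1 : Q K * δ ≤ Q K * (C3 * ka K ^ C3) * δ := by
      apply mul_le_mul_of_nonneg_right _ hδ0
      nlinarith
    linarith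
  -- H generates
  have hgen : Subgroup.closure (H : Set (SL (ZMod p))) = ⊤ := by
    by_contra hne
    have h1 := coset_le ν hν.1 H (Subgroup.closure (H : Set (SL (ZMod p))))
      (fun h hh => Subgroup.subset_closure hh) x
    have h2 := hδ _ hne x
    have h3 : Q K * ∑ h ∈ H, ν (x * h) ≤ Q K * δ :=
      mul_le_mul_of_nonneg_left (h1.trans h2) hQpos
    linarith
  rcases hPRO p hp H (ka K) hHapp hgen with hsm | hbig
  · exfalso
    have hQ0 : 0 < Q K := by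
      rcases hQpos.lt_or_eq with h | h
      · exact h
      · rw [← h] at hxQ
        simp at hxQ
        linarith
    have h1 : 1 / Q K ≤ ∑ h ∈ H, ν (x * h) := by
      rw [div_le_iff₀ hQ0]
      linarith
    obtain ⟨h, hh, hxh⟩ := exists_large H (fun h => ν (x * h)) (C3 * ka K ^ C3) _ hsm
      (by positivity) h1
    rw [div_le_iff₀ hQ0] at hxh
    have h2 := coset_le ν hν.1 {1} (⊥ : Subgroup (SL (ZMod p))) (by simp) (x * h)
    simp only [Finset.sum_singleton, mul_one] at h2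
    have h3 := hδ ⊥ hbt (x * h)
    have h4 : ν (x * h) ≤ δ := h2.trans h3
    have h5 : C3 * ka K ^ C3 * ν (x * h) * Q K ≤ Q K * (C3 * ka K ^ C3) * δ := by
      calc C3 * ka K ^ C3 * ν (x * h) * Q K = (Q K * (C3 * ka K ^ C3)) * ν (x * h) := by ring
        _ ≤ (Q K * (C3 * ka K ^ C3)) * δ := mul_le_mul_of_nonneg_left h4 (by positivity)
    linarith
  · have hPAc : (P.card : ℝ) ≤ A.card := by exact_mod_cast Finset.card_le_card hPA
    have h1 : (p : ℝ) ^ 3 ≤ (C3 * ka K ^ C3) * (ka K * (A.card : ℝ)) := by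
      refine hbig.trans ?_
      apply mul_le_mul_of_nonneg_left _ (by positivity)
      refine hHP.trans ?_
      exact mul_le_mul_of_nonneg_left hPAc (by linarith)
    have h2 : N2 ν * (p : ℝ) ^ 3 ≤ N2 ν * ((C3 * ka K ^ C3) * (ka K * (A.card : ℝ))) :=
      mul_le_mul_of_nonneg_left h1 hN0.le
    have h3 : N2 ν * ((C3 * ka K ^ C3) * (ka K * (A.card : ℝ))) ≤
        (C3 * ka K ^ C3) * ka K * M K := by
      calc N2 ν * ((C3 * ka K ^ C3) * (ka K * (A.card : ℝ)))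
          = (C3 * ka K ^ C3) * ka K * ((A.card : ℝ) * N2 ν) := by ring
        _ ≤ (C3 * ka K ^ C3) * ka K * M K := mul_le_mul_of_nonneg_left hAN (by positivity)
    have h4 := (hG K hK).2
    calc N2 ν * (p : ℝ) ^ 3 ≤ _ := h2
      _ ≤ _ := h3
      _ ≤ _ := h4
      _ ≤ _ := hEle
      _ = _ := by push_cast; ring

end Pool.Agent.Helper85.XP.FLT
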